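import Pool.Agent.helper87.FS.Spec

set_option autoImplicit false

namespace Pool.Agent.FS

open Polynomial Matrix Pool.Agent.helper42.NS

/-- Reindexing of the iterates. -/
theorem REL_pow {a b : ℕ} (f : Fin a ≃ Fin b) (A : Matrix (Fin b) (Fin b) ℤ)
    (A' : Matrix (Fin a) (Fin a) ℤ) (h : ∀ i j, A' i j = A (f i) (f j)) (j : Fin a) (l : ℕ) :
    ∀ i, (A' ^ l).mulVec (Pi.single j 1) i = (A ^ l).mulVec (Pi.single (f j) 1) (f i) := by
  induction l with
  | zero =>
    intro i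
    simp only [pow_zero, Matrix.one_mulVec, Pi.single_apply, EmbeddingLike.apply_eq_iff_eq]
  | succ l ih =>
    intro i
    rw [pow_succ', pow_succ', ← Matrix.mulVec_mulVec, ← Matrix.mulVec_mulVec]
    have e1 : (A'.mulVec ((A' ^ l).mulVec (Pi.single j 1))) i =
        ∑ x, A' i x * ((A' ^ l).mulVec (Pi.single j 1)) x := rfl
    have e2 : (A.mulVec ((A ^ l).mulVec (Pi.single (f j) 1))) (f i) =
        ∑ x, A (f i) x * ((A ^ l).mulVec (Pi.single (f j) 1)) x := rfl
    rw [e1, e2, ← Equiv.sum_comp f]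
    refine Finset.sum_congr rfl fun x _ => ?_
    rw [h, ih]

theorem REL_top {a b : ℕ} (f : Fin a ≃ Fin b) (A : Matrix (Fin b) (Fin b) ℤ)
    (A' : Matrix (Fin a) (Fin a) ℤ) (h : ∀ i j, A' i j = A (f i) (f j)) (R : Set (Fin a))
    (S : Set (Fin b)) (hRS : ∀ i ∈ R, f i ∈ S) (ht : Kry A' (uv R) = ⊤) : Kry A (uv S) = ⊤ := by
  have key : Kry A' (uv R) ≤ (Kry A (uv S)).comap (LinearMap.funLeft ℤ ℤ f.symm) := by
    unfold Kry
    rw [Submodule.span_le]
    rintro v ⟨x, ⟨s, hs, rfl⟩, l, rfl⟩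
    refine Submodule.subset_span ⟨Pi.single (f s) 1, ⟨f s, hRS s hs, rfl⟩, l, ?_⟩
    funext i
    rw [LinearMap.funLeft_apply, REL_pow f A A' h s l, Equiv.apply_symm_apply]
  rw [eq_top_iff]
  intro w _
  have hw : w ∘ f ∈ Kry A' (uv R) := by
    rw [ht]
    trivial
  have h2 := key hw
  rw [Submodule.mem_comap] at h2
  have h3 : LinearMap.funLeft ℤ ℤ f.symm (w ∘ f) = w := by
    funext i
    rw [LinearMap.funLeft_apply, Function.comp_apply, Equiv.apply_symm_apply]
  rwa [h3] at h2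

theorem REL_equiv (n k : ℕ) (S : Finset (Fin n)) (hk : k ≤ S.card) :
    ∃ f : Fin (k + (n - k)) ≃ Fin n, ∀ i ∈ Set.range (Fin.castAdd (n - k) : Fin k → Fin (k + (n - k))),
      f i ∈ (S : Set (Fin n)) := by
  classical
  obtain ⟨T, hTS, hT⟩ := Finset.exists_subset_card_eq hk
  have e1 : Fin k ≃ {x // x ∈ T} := (T.equivFinOfCardEq hT).symm
  have hc : (Tᶜ : Finset (Fin n)).card = n - k := by
    rw [Finset.card_compl, Fintype.card_fin, hT]
  have e2 : Fin (n - k) ≃ {x // x ∉ T} := by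
    refine (Finset.equivFinOfCardEq hc).symm.trans (Equiv.subtypeEquivRight fun x => ?_)
    rw [Finset.mem_compl]
  refine ⟨finSumFinEquiv.symm.trans ((Equiv.sumCongr e1 e2).trans (Equiv.sumCompl fun x => x ∈ T)), ?_⟩
  rintro _ ⟨i, rfl⟩
  have h1 : finSumFinEquiv.symm (Fin.castAdd (n - k) i) = Sum.inl i := by
    rw [finSumFinEquiv_symm_apply_castAdd]
  simp only [Equiv.trans_apply, h1, Equiv.sumCongr_apply, Sum.map_inl, Equiv.sumCompl_apply_inl]
  exact hTS (e1 i).2

theorem REL (h1 : CGR_stmt) : REL_stmt := by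
  classical
  intro n S hS
  set L := Nat.clog 2 n with hL
  have hkS : 3 * L + 3 * L + 5 * L ≤ S.card := by omega
  have hSn : S.card ≤ n := by
    have := Finset.card_le_univ S
    rwa [Fintype.card_fin] at this
  obtain ⟨f, hf⟩ := REL_equiv n (3 * L + 3 * L + 5 * L) S hkS
  have hn2 : n ≤ 2 ^ L := Nat.le_pow_clog (by norm_num) n
  have hC := h1 L (n - (3 * L + 3 * L + 5 * L)) (by omega)
  have hle : Nat.card {G : SimpleGraph (Fin n) // Kry (adj G) (uv (S : Set (Fin n))) ≠ ⊤} ≤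
      Nat.card {G : SimpleGraph (Fin (3 * L + 3 * L + 5 * L + (n - (3 * L + 3 * L + 5 * L)))) //
        Kry (adj G) (uv (Set.range (Fin.castAdd (n - (3 * L + 3 * L + 5 * L))))) ≠ ⊤} := by
    refine Nat.card_le_card_of_injective (fun G => ⟨G.1.comap f, fun hK => G.2 ?_⟩) ?_
    · refine REL_top f (adj G.1) (adj (G.1.comap f)) ?_ _ _ hf hK
      intro i j
      unfold adj
      simp only [SimpleGraph.comap_adj]
    · intro G G' h
      have h' := congrArg Subtype.val h
      refine Subtype.ext (SimpleGraph.ext ?_)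
      funext x y
      have h2 : (G.1.comap f).Adj (f.symm x) (f.symm y) = (G'.1.comap f).Adj (f.symm x) (f.symm y) :=
        congrArg (fun K : SimpleGraph _ => K.Adj (f.symm x) (f.symm y)) h'
      simpa using h2
  have hn : (3 * L + 3 * L + 5 * L + (n - (3 * L + 3 * L + 5 * L))).choose 2 = n.choose 2 := by
    congr 1
    omega
  rw [hn] at hC
  generalize Nat.card {G : SimpleGraph (Fin (3 * L + 3 * L + 5 * L + (n - (3 * L + 3 * L + 5 * L)))) //
        Kry (adj G) (uv (Set.range (Fin.castAdd (n - (3 * L + 3 * L + 5 * L))))) ≠ ⊤} = Y at hC hle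
  generalize Nat.card {G : SimpleGraph (Fin n) // Kry (adj G) (uv (S : Set (Fin n))) ≠ ⊤} = X at hle ⊢
  generalize 2 ^ n.choose 2 = c at hC ⊢
  have h3 : n * X ≤ 2 ^ L * Y := Nat.mul_le_mul hn2 hle
  rw [pow_succ] at hC
  nlinarith

end Pool.Agent.FS
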