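import Pool.Agent.helper87.FS.Spec

set_option autoImplicit false

namespace Pool.Agent.FS

open Polynomial Matrix Pool.Agent.helper42.NS

/-- A good stage satisfies the three conditions. -/
theorem TOT_good (h5 : BCR_stmt) (ka kb t : ℕ) (H : Matrix (Fin t) (Fin t) ℤ)
    (B : Fin (ka + kb) → Fin t → Bool) (h : GG ka kb t H B) : G0 ka kb H B := by
  cases t with
  | zero =>
    refine ⟨fun P _ => ?_, fun P _ => ?_, fun P => ?_⟩
    · rw [h5.2.2]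
      exact Nat.zero_le _
    · rw [h5.1, not_not]
      exact h5.2.2 P _ H B
    · rw [h5.2.2]
      exact Nat.zero_le _
  | succ t => exact h.2

theorem TOT_univ (t k : ℕ) :
    Set.ncard {bz : (Fin t → Bool) × (Fin k → Bool) | True} = 2 ^ (t + k) := by
  have h : {bz : (Fin t → Bool) × (Fin k → Bool) | True} = Set.univ := by
    ext x
    simp
  rw [h, Set.ncard_univ, Nat.card_eq_fintype_card, Fintype.card_prod]
  simp [pow_add]

theorem TOT_step (h1 : CXF_stmt) (h2 : CST_stmt) (h3 : EV1_stmt) (h4 : EV2_stmt) (h5 : BCR_stmt)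
    (L t : ℕ) (ht : t + 1 ≤ 2 ^ L)
    (ih : Set.ncard {HB : Matrix (Fin t) (Fin t) ℤ × (Fin (3 * L + 3 * L) → Fin t → Bool) |
      IsGr HB.1 ∧ ¬ GG (3 * L) (3 * L) t HB.1 HB.2} * 2 ^ (2 * L + 1) ≤
      5 * t * 2 ^ (t.choose 2 + (3 * L + 3 * L) * t)) :
    Set.ncard {HB : Matrix (Fin (t + 1)) (Fin (t + 1)) ℤ × (Fin (3 * L + 3 * L) → Fin (t + 1) → Bool) |
      IsGr HB.1 ∧ ¬ GG (3 * L) (3 * L) (t + 1) HB.1 HB.2} * 2 ^ (2 * L + 1) ≤
      5 * (t + 1) * 2 ^ ((t + 1).choose 2 + (3 * L + 3 * L) * (t + 1)) := by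
  classical
  have hfin := (h1 (t + 1) (3 * L + 3 * L)).1
  -- the four parts
  have hA := h2 t (3 * L + 3 * L) 1 (2 ^ (t + (3 * L + 3 * L)))
    (fun H B => ¬ GG (3 * L) (3 * L) t H B) (fun _ _ => True) (by
      intro H B _ _
      rw [TOT_univ, mul_one])
  have hE1 := h3 (3 * L) (3 * L) t L (by omega)
  have hB1 := hE1.1
  have hB3 := hE1.2
  have hB2 := (h4 (3 * L) (3 * L) (t + 1) L ht).1
  set W := 2 ^ ((t + 1).choose 2 + (3 * L + 3 * L) * (t + 1)) with hW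
  set A : Set (Matrix (Fin (t + 1)) (Fin (t + 1)) ℤ × (Fin (3 * L + 3 * L) → Fin (t + 1) → Bool)) :=
    {HB | IsGr HB.1 ∧ ¬ GG (3 * L) (3 * L) t (trH HB.1) (trB HB.2) ∧ True} with hAdef
  set B1 : Set (Matrix (Fin (t + 1)) (Fin (t + 1)) ℤ × (Fin (3 * L + 3 * L) → Fin (t + 1) → Bool)) :=
    {HB | IsGr HB.1 ∧ (∀ P : Pt, Above 2 P → crm P (trH HB.1) (fst' (3 * L) (3 * L) (trB HB.2)) ≤ 1) ∧
      ¬ (∀ P : Pt, Above 2 P → crm P HB.1 (fst' (3 * L) (3 * L) HB.2) ≤ 1)} with hB1def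
  set B2 : Set (Matrix (Fin (t + 1)) (Fin (t + 1)) ℤ × (Fin (3 * L + 3 * L) → Fin (t + 1) → Bool)) :=
    {HB | IsGr HB.1 ∧ (∀ P : Pt, Above 2 P → crm P HB.1 (fst' (3 * L) (3 * L) HB.2) ≤ 1) ∧
      ∃ P : Pt, Above 2 P ∧ Bad P HB.1 HB.2} with hB2def
  set B3 : Set (Matrix (Fin (t + 1)) (Fin (t + 1)) ℤ × (Fin (3 * L + 3 * L) → Fin (t + 1) → Bool)) :=
    {HB | IsGr HB.1 ∧ ((∀ P : Pt, Above 2 P → ¬ Bad P (trH HB.1) (trB HB.2)) ∧
      ∀ P : Pt, crm P (trH HB.1) (trB HB.2) ≤ 1) ∧ ¬ (∀ P : Pt, crm P HB.1 HB.2 ≤ 1)} with hB3def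
  have hsub : {HB : Matrix (Fin (t + 1)) (Fin (t + 1)) ℤ × (Fin (3 * L + 3 * L) → Fin (t + 1) → Bool) |
      IsGr HB.1 ∧ ¬ GG (3 * L) (3 * L) (t + 1) HB.1 HB.2} ⊆ A ∪ (B1 ∪ (B2 ∪ B3)) := by
    rintro ⟨H, B⟩ ⟨hG, hng⟩
    by_cases hg : GG (3 * L) (3 * L) t (trH H) (trB B)
    · right
      have hg0 := TOT_good h5 (3 * L) (3 * L) t _ _ hg
      by_cases c1 : ∀ P : Pt, Above 2 P → crm P H (fst' (3 * L) (3 * L) B) ≤ 1
      · right
        by_cases c2 : ∃ P : Pt, Above 2 P ∧ Bad P H B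
        · left
          exact ⟨hG, c1, c2⟩
        · right
          refine ⟨hG, ⟨hg0.2.1, hg0.2.2⟩, fun c3 => hng ⟨hg, c1, fun P hP hb => c2 ⟨P, hP, hb⟩, c3⟩⟩
      · left
        exact ⟨hG, hg0.1, c1⟩
    · left
      exact ⟨hG, hg, trivial⟩
  have hfA : (A ∪ (B1 ∪ (B2 ∪ B3))).Finite := by
    refine hfin.subset ?_
    rintro HB (h | h | h | h)
    · exact h.1
    · exact h.1
    · exact h.1
    · exact h.1
  have hc1 := Set.ncard_le_ncard hsub hfA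
  have hc2 := Set.ncard_union_le A (B1 ∪ (B2 ∪ B3))
  have hc3 := Set.ncard_union_le B1 (B2 ∪ B3)
  have hc4 := Set.ncard_union_le B2 B3
  -- numbers
  have hpos : 0 < 2 ^ L := by positivity
  have hp3 : 2 ^ (3 * L) = 2 ^ (2 * L) * 2 ^ L := by rw [← pow_add]; congr 1; omega
  have n1 : Set.ncard A * 2 ^ (2 * L + 1) ≤ 5 * t * W := by
    have hWt : W = 2 ^ (t.choose 2 + (3 * L + 3 * L) * t) * 2 ^ (t + (3 * L + 3 * L)) := by
      rw [hW, ← pow_add]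
      congr 1
      rw [Nat.choose_succ_succ' t 1, Nat.choose_one_right]
      ring
    rw [mul_one] at hA
    calc Set.ncard A * 2 ^ (2 * L + 1)
        ≤ (Set.ncard {HB : Matrix (Fin t) (Fin t) ℤ × (Fin (3 * L + 3 * L) → Fin t → Bool) |
            IsGr HB.1 ∧ ¬ GG (3 * L) (3 * L) t HB.1 HB.2} * 2 ^ (t + (3 * L + 3 * L))) * 2 ^ (2 * L + 1) :=
          Nat.mul_le_mul_right _ hA
      _ = (Set.ncard {HB : Matrix (Fin t) (Fin t) ℤ × (Fin (3 * L + 3 * L) → Fin t → Bool) |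
            IsGr HB.1 ∧ ¬ GG (3 * L) (3 * L) t HB.1 HB.2} * 2 ^ (2 * L + 1)) * 2 ^ (t + (3 * L + 3 * L)) := by
          ring
      _ ≤ (5 * t * 2 ^ (t.choose 2 + (3 * L + 3 * L) * t)) * 2 ^ (t + (3 * L + 3 * L)) :=
          Nat.mul_le_mul_right _ ih
      _ = 5 * t * W := by rw [hWt]; ring
  have n2 : Set.ncard B1 * 2 ^ (2 * L + 1) ≤ W := by
    have h : (Set.ncard B1 * 2 ^ (2 * L + 1)) * 2 ^ L ≤ W * 2 ^ L := by
      calc (Set.ncard B1 * 2 ^ (2 * L + 1)) * 2 ^ L = Set.ncard B1 * 2 ^ (3 * L + 1) := by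
            rw [pow_succ, pow_succ, hp3]; ring
        _ ≤ t * W := hB1
        _ ≤ 2 ^ L * W := Nat.mul_le_mul_right _ (by omega)
        _ = W * 2 ^ L := by ring
    exact Nat.le_of_mul_le_mul_right h hpos
  have n3 : Set.ncard B2 * 2 ^ (2 * L + 1) ≤ 2 * W := by
    have h : (Set.ncard B2 * 2 ^ (2 * L + 1)) * 2 ^ L ≤ (2 * W) * 2 ^ L := by
      calc (Set.ncard B2 * 2 ^ (2 * L + 1)) * 2 ^ L = 2 * (Set.ncard B2 * 2 ^ (3 * L)) := by
            rw [pow_succ, hp3]; ring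
        _ ≤ 2 * ((t + 1) * W) := Nat.mul_le_mul_left _ hB2
        _ ≤ 2 * (2 ^ L * W) := Nat.mul_le_mul_left _ (Nat.mul_le_mul_right _ ht)
        _ = (2 * W) * 2 ^ L := by ring
    exact Nat.le_of_mul_le_mul_right h hpos
  have n4 : Set.ncard B3 * 2 ^ (2 * L + 1) ≤ 2 * W := by
    have hp4 : 0 < 2 ^ (4 * L) := by positivity
    have h : (Set.ncard B3 * 2 ^ (2 * L + 1)) * 2 ^ (4 * L) ≤ (2 * W) * 2 ^ (4 * L) := by
      calc (Set.ncard B3 * 2 ^ (2 * L + 1)) * 2 ^ (4 * L) = Set.ncard B3 * 2 ^ (3 * L + 3 * L + 1) := by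
            rw [mul_assoc, ← pow_add]
            congr 2
            omega
        _ ≤ 2 ^ (4 * L + 1) * W := hB3
        _ = (2 * W) * 2 ^ (4 * L) := by rw [pow_succ]; ring
    exact Nat.le_of_mul_le_mul_right h hp4
  calc Set.ncard {HB : Matrix (Fin (t + 1)) (Fin (t + 1)) ℤ × (Fin (3 * L + 3 * L) → Fin (t + 1) → Bool) |
      IsGr HB.1 ∧ ¬ GG (3 * L) (3 * L) (t + 1) HB.1 HB.2} * 2 ^ (2 * L + 1)
      ≤ (Set.ncard A + (Set.ncard B1 + (Set.ncard B2 + Set.ncard B3))) * 2 ^ (2 * L + 1) :=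
        Nat.mul_le_mul_right _ (by omega)
    _ = Set.ncard A * 2 ^ (2 * L + 1) + (Set.ncard B1 * 2 ^ (2 * L + 1) +
        (Set.ncard B2 * 2 ^ (2 * L + 1) + Set.ncard B3 * 2 ^ (2 * L + 1))) := by ring
    _ ≤ 5 * t * W + (W + (2 * W + 2 * W)) := by omega
    _ = 5 * (t + 1) * W := by ring

theorem TOT (h1 : CXF_stmt) (h2 : CST_stmt) (h3 : EV1_stmt) (h4 : EV2_stmt) (h5 : BCR_stmt) : TOT_stmt := by
  intro L m
  induction m with
  | zero =>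
    intro _
    have h : {HB : Matrix (Fin 0) (Fin 0) ℤ × (Fin (3 * L + 3 * L) → Fin 0 → Bool) |
        IsGr HB.1 ∧ ¬ GG (3 * L) (3 * L) 0 HB.1 HB.2} = ∅ := by
      rw [Set.eq_empty_iff_forall_notMem]
      rintro HB ⟨_, h⟩
      exact h trivial
    rw [h, Set.ncard_empty, zero_mul]
    exact Nat.zero_le _
  | succ t ih =>
    intro ht
    exact TOT_step h1 h2 h3 h4 h5 L t ht (ih (by omega))

end Pool.Agent.FS
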